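import Pool.Agent.Run7.h87.Assemble

set_option autoImplicit false

/-! Partial semisymmetric structures (all squares defined): basics. -/

namespace Pool.Agent.Run7.h87.SS

open Finset Pool.Agent.Run7.h87

attribute [local instance 10] Classical.propDecidable

/-- A partial semisymmetric quasigroup with all squares defined: `R a b c` means `a b = c`. -/
structure PS {V : Type*} (R : V → V → V → Prop) : Prop where
  cyc : ∀ a b c, R a b c → R b c a
  uniq : ∀ a b c c', R a b c → R a b c' → c = c'
  loop : ∀ a, ∃ c, R a a c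

variable {V : Type*} {R : V → V → V → Prop}

theorem PS.cyc2 (h : PS R) {a b c : V} (hr : R a b c) : R c a b :=
  h.cyc _ _ _ (h.cyc _ _ _ hr)

theorem lv_iff (h : PS R) (a b : V) : Lv R a b ↔ ¬ Cov R a b := by
  constructor
  · exact fun h => h.2
  · intro h'
    refine ⟨?_, h'⟩
    rintro rfl
    exact h' (h.loop a)

section Fin

variable [Fintype V]

theorem card_cov_in (h : PS R) (a : V) :
    (univ.filter (fun b => Cov R b a)).card = cdeg R a := by
  classical
  unfold cdeg
  refine Finset.card_bij (fun b hb => Classical.choose (mem_filter.1 hb).2) ?_ ?_ ?_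
  · intro b hb
    have := Classical.choose_spec (mem_filter.1 hb).2
    simp only [mem_filter, mem_univ, true_and]
    exact ⟨b, h.cyc _ _ _ this⟩
  · intro b hb b' hb' e
    have h1 := Classical.choose_spec (mem_filter.1 hb).2
    have h2 := Classical.choose_spec (mem_filter.1 hb').2
    rw [← e] at h2
    exact h.uniq _ _ _ _ (h.cyc _ _ _ h1) (h.cyc _ _ _ h2)
  · intro c hc
    obtain ⟨b, hb⟩ := (mem_filter.1 hc).2
    have hb2 : R b a c := h.cyc2 hb
    refine ⟨b, by simp only [mem_filter, mem_univ, true_and]; exact ⟨c, hb2⟩, ?_⟩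
    have := Classical.choose_spec (mem_filter.1 (show b ∈ univ.filter (fun b => Cov R b a) from by
      simp only [mem_filter, mem_univ, true_and]; exact ⟨c, hb2⟩)).2
    exact h.uniq _ _ _ _ this hb2

theorem ldeg_add_cdeg (h : PS R) (a : V) : ldeg R a + cdeg R a = Fintype.card V := by
  classical
  unfold ldeg cdeg
  rw [add_comm, ← Finset.card_univ]
  rw [← card_union_of_disjoint]
  · congr 1
    ext b
    simp only [mem_union, mem_filter, mem_univ, true_and, iff_true]
    rw [lv_iff h]
    exact em _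
  · rw [disjoint_filter]
    intro b _ hb hl
    exact hl.2 hb

theorem card_lv_in (h : PS R) (a : V) :
    (univ.filter (fun b => Lv R b a)).card = ldeg R a := by
  classical
  have h1 := ldeg_add_cdeg h a
  have h2 := card_cov_in h a
  have h3 : (univ.filter (fun b => Cov R b a)).card + (univ.filter (fun b => Lv R b a)).card =
      Fintype.card V := by
    rw [← Finset.card_univ, ← card_union_of_disjoint]
    · congr 1
      ext b
      simp only [mem_union, mem_filter, mem_univ, true_and, iff_true]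
      rw [lv_iff h]
      exact em _
    · rw [disjoint_filter]
      intro b _ hb hl
      exact hl.2 hb
  omega

end Fin

/-- Union with a partial MTS of new arcs. -/
theorem PS.union {R1 R2 : V → V → V → Prop} (h1 : PS R1) (h2 : IsPMTS R2)
    (hd : ∀ a b, Cov R1 a b → Cov R2 a b → False) :
    PS (fun a b c => R1 a b c ∨ R2 a b c) := by
  refine ⟨?_, ?_, ?_⟩
  · rintro a b c (h | h)
    · exact Or.inl (h1.cyc _ _ _ h)
    · exact Or.inr (h2.cyc _ _ _ h)
  · rintro a b c c' (h | h) (h' | h')
    · exact h1.uniq _ _ _ _ h h'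
    · exact (hd a b ⟨c, h⟩ ⟨c', h'⟩).elim
    · exact (hd a b ⟨c', h'⟩ ⟨c, h⟩).elim
    · exact h2.uniq _ _ _ _ h h'
  · intro a
    obtain ⟨c, hc⟩ := h1.loop a
    exact ⟨c, Or.inl hc⟩

theorem exists_maximal_aux [Fintype V] (m : ℕ) : ∀ {R : V → V → V → Prop}, PS R →
    (univ.filter (fun p : V × V => Lv R p.1 p.2)).card ≤ m →
    ∃ R' : V → V → V → Prop, PS R' ∧ (∀ a b c, R a b c → R' a b c) ∧
      ∀ a b c, Lv R' a b → Lv R' b c → Lv R' c a → False := by
  classical
  induction m with
  | zero =>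
    intro R hR hm
    refine ⟨R, hR, fun _ _ _ h => h, ?_⟩
    intro a b c h _ _
    have : (a, b) ∈ univ.filter (fun p : V × V => Lv R p.1 p.2) := by
      simp only [mem_filter, mem_univ, true_and]; exact h
    rw [card_eq_zero.1 (Nat.le_zero.1 hm)] at this
    exact absurd this (notMem_empty _)
  | succ m ih =>
    intro R hR hm
    by_cases hex : ∃ a b c, Lv R a b ∧ Lv R b c ∧ Lv R c a
    · obtain ⟨a, b, c, h1, h2, h3⟩ := hex
      have ht : IsPMTS (Tri a b c) := tri_isPMTS h1.1 h2.1 h3.1
      have hd : ∀ x y, Cov R x y → Cov (Tri a b c) x y → False := by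
        rintro x y hc ⟨z, (⟨rfl, rfl, rfl⟩ | ⟨rfl, rfl, rfl⟩ | ⟨rfl, rfl, rfl⟩)⟩
        · exact h1.2 hc
        · exact h2.2 hc
        · exact h3.2 hc
      have hu := hR.union ht hd
      have hlt : (univ.filter (fun p : V × V => Lv (fun x y z => R x y z ∨ Tri a b c x y z) p.1 p.2)).card
          < (univ.filter (fun p : V × V => Lv R p.1 p.2)).card := by
        apply card_lt_card
        rw [ssubset_iff_of_subset]
        · refine ⟨(a, b), ?_, ?_⟩
          · simp only [mem_filter, mem_univ, true_and]; exact h1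
          · simp only [mem_filter, mem_univ, true_and]
            intro h
            exact h.2 ⟨c, Or.inr (Or.inl ⟨rfl, rfl, rfl⟩)⟩
        · intro p hp
          simp only [mem_filter, mem_univ, true_and] at hp ⊢
          exact ⟨hp.1, fun ⟨z, hz⟩ => hp.2 ⟨z, Or.inl hz⟩⟩
      obtain ⟨R', k1, k2, k3⟩ := ih hu (by omega)
      exact ⟨R', k1, fun x y z h => k2 x y z (Or.inl h), k3⟩
    · push Not at hex
      exact ⟨R, hR, fun _ _ _ h => h, fun a b c h1 h2 h3 => hex a b c h1 h2 h3⟩

theorem exists_maximal [Fintype V] {R : V → V → V → Prop} (hR : PS R) :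
    ∃ R' : V → V → V → Prop, PS R' ∧ (∀ a b c, R a b c → R' a b c) ∧
      ∀ a b c, Lv R' a b → Lv R' b c → Lv R' c a → False :=
  exists_maximal_aux _ hR le_rfl

theorem two_mul_leave_le [Fintype V] {R : V → V → V → Prop} (hR : PS R)
    (hmax : ∀ a b c, Lv R a b → Lv R b c → Lv R c a → False) :
    2 * (∑ a, ldeg R a) ≤ Fintype.card V ^ 2 := by
  classical
  set n := Fintype.card V with hn
  have hsum : ∀ a b, Lv R a b → ldeg R a + ldeg R b ≤ n := by
    intro a b hab
    rw [← card_lv_in hR a]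
    unfold ldeg
    rw [← card_union_of_disjoint, hn, ← Finset.card_univ]
    · exact card_le_card (subset_univ _)
    · rw [disjoint_filter]
      intro c _ h1 h2
      exact hmax a b c hab h2 h1
  have e1 : ∑ a, ∑ b, (if Lv R a b then (ldeg R a + ldeg R b) else 0) ≤
      ∑ a, ∑ b, (if Lv R a b then n else 0) := by
    apply sum_le_sum; intro a _
    apply sum_le_sum; intro b _
    split_ifs with h
    · exact hsum a b h
    · exact le_rfl
  have e2 : ∑ a, ∑ b, (if Lv R a b then n else 0) = n * ∑ a, ldeg R a := by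
    rw [mul_sum]
    apply sum_congr rfl; intro a _
    rw [← sum_filter, sum_const, smul_eq_mul, mul_comm]
    rfl
  have e3 : ∑ a, ∑ b, (if Lv R a b then (ldeg R a + ldeg R b) else 0) = 2 * ∑ a, ldeg R a ^ 2 := by
    have : ∀ a b, (if Lv R a b then (ldeg R a + ldeg R b) else 0) =
        (if Lv R a b then ldeg R a else 0) + (if Lv R a b then ldeg R b else 0) := by
      intro a b; split_ifs <;> rfl
    simp_rw [this, sum_add_distrib]
    rw [two_mul]
    congr 1
    · apply sum_congr rfl; intro a _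
      rw [← sum_filter, sum_const, smul_eq_mul, sq]
      rfl
    · rw [sum_comm]
      apply sum_congr rfl; intro b _
      rw [← sum_filter, sum_const, smul_eq_mul, card_lv_in hR b, sq]
  have e4 : (∑ a, ldeg R a) ^ 2 ≤ n * ∑ a, ldeg R a ^ 2 := by
    have := sq_sum_le_card_mul_sum_sq (s := (univ : Finset V)) (f := fun a => ldeg R a)
    rw [Finset.card_univ] at this
    exact this
  rw [e2, e3] at e1
  set S := ∑ a, ldeg R a with hS
  rcases Nat.eq_zero_or_pos S with h0 | h0
  · rw [h0]; simp
  · have h5 : 2 * S * S ≤ n ^ 2 * S := by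
      calc 2 * S * S = 2 * S ^ 2 := by ring
        _ ≤ 2 * (n * ∑ a, ldeg R a ^ 2) := Nat.mul_le_mul_left _ e4
        _ = n * (2 * ∑ a, ldeg R a ^ 2) := by ring
        _ ≤ n * (n * S) := Nat.mul_le_mul_left _ e1
        _ = n ^ 2 * S := by ring
    exact Nat.le_of_mul_le_mul_right h5 h0

/-- the number of defined products is the number of idempotents modulo 3 -/
theorem cov_modEq [Fintype V] {R : V → V → V → Prop} (hR : PS R) :
    ∑ a, cdeg R a ≡ (univ.filter (fun a => R a a a)).card [MOD 3] := by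
  classical
  have : Fact (Nat.Prime 3) := ⟨Nat.prime_three⟩
  let f : {x : V × V × V // R x.1 x.2.1 x.2.2} → {x : V × V × V // R x.1 x.2.1 x.2.2} :=
    fun x => ⟨(x.1.2.1, x.1.2.2, x.1.1), hR.cyc _ _ _ x.2⟩
  have hf : (show Function.End _ from f) ^ 3 ^ 1 = 1 := by
    funext x
    show f (f (f x)) = x
    rfl
  have key := Equiv.Perm.card_fixedPoints_modEq (p := 3) (n := 1) (f := (show Function.End _ from f)) hf
  have hfix : Fintype.card (Function.fixedPoints f) = (univ.filter (fun a => R a a a)).card := by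
    rw [← Fintype.card_subtype]
    refine Fintype.card_congr ⟨fun x => ⟨x.1.1.1, ?_⟩, fun a => ⟨⟨(a.1, a.1, a.1), a.2⟩, rfl⟩, ?_, ?_⟩
    · obtain ⟨⟨⟨a, b, c⟩, hx⟩, hfx⟩ := x
      have h1 : f ⟨(a, b, c), hx⟩ = ⟨(a, b, c), hx⟩ := hfx
      have h2 : b = a := congrArg (fun y => y.1.1) h1
      have h3 : c = b := congrArg (fun y => y.1.2.1) h1
      subst h2
      subst h3
      exact hx
    · rintro ⟨⟨⟨a, b, c⟩, hx⟩, hfx⟩
      have h1 : f ⟨(a, b, c), hx⟩ = ⟨(a, b, c), hx⟩ := hfx
      have h2 : b = a := congrArg (fun y => y.1.1) h1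
      have h3 : c = b := congrArg (fun y => y.1.2.1) h1
      subst h2
      subst h3
      rfl
    · rintro ⟨a, ha⟩
      rfl
  have hcard : Fintype.card {x : V × V × V // R x.1 x.2.1 x.2.2} = ∑ a, cdeg R a := by
    have : (∑ a, cdeg R a) = (univ.sigma (fun a : V => univ.filter (fun b => Cov R a b))).card := by
      rw [card_sigma]; rfl
    rw [this, Fintype.card_subtype]
    refine card_bij (fun x _ => (⟨x.1, x.2.1⟩ : (_ : V) × V)) ?_ ?_ ?_
    · rintro ⟨a, b, c⟩ h
      simp only [mem_filter, mem_univ, true_and] at h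
      simp only [mem_sigma, mem_filter, mem_univ, true_and]
      exact ⟨c, h⟩
    · rintro ⟨a, b, c⟩ h ⟨a', b', c'⟩ h' e
      simp only [mem_filter, mem_univ, true_and] at h h'
      simp only [Sigma.mk.injEq, heq_eq_eq] at e
      obtain ⟨rfl, rfl⟩ := e
      rw [hR.uniq _ _ _ _ h h']
    · rintro ⟨a, b⟩ h
      simp only [mem_sigma, mem_filter, mem_univ, true_and] at h
      obtain ⟨c, hc⟩ := h
      exact ⟨(a, b, c), by simp only [mem_filter, mem_univ, true_and]; exact hc, rfl⟩
  rw [← hcard, ← hfix]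
  refine key.trans ?_
  exact Nat.ModEq.refl _

theorem sum_ldeg_add [Fintype V] {R : V → V → V → Prop} (hR : PS R) :
    ∑ a, ldeg R a + ∑ a, cdeg R a = Fintype.card V * Fintype.card V := by
  rw [← sum_add_distrib, sum_congr rfl (fun a _ => ldeg_add_cdeg hR a), sum_const, smul_eq_mul,
    Finset.card_univ]

/-- Completion with a hub. -/
theorem hub_completion {U : Type*} [Fintype U] {R : U → U → U → Prop} (hR : PS R) {z : ℕ}
    (hreg : ∀ a, ldeg R a = z) :
    ∃ R' : U ⊕ Fin z → U ⊕ Fin z → U ⊕ Fin z → Prop, PS R' ∧ (∀ a b, ∃ c, R' a b c) ∧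
      ∀ a b c, R a b c → R' (Sum.inl a) (Sum.inl b) (Sum.inl c) := by
  classical
  obtain ⟨σ, s1, s2, s3⟩ := konig z (Lv R) (fun a => hreg a)
    (fun b => by rw [card_lv_in hR b]; exact hreg b)
  obtain ⟨Q, q1, q2, q3⟩ : ∃ Q : Fin z → Fin z → Fin z → Prop, (∀ a b c, Q a b c → Q b c a) ∧
      (∀ a b c c', Q a b c → Q a b c' → c = c') ∧ ∀ a b, ∃ c, Q a b c := by
    rcases Nat.eq_zero_or_pos z with h0 | h0
    · subst h0
      exact ⟨fun _ _ _ => True, fun a => a.elim0, fun a => a.elim0, fun a => a.elim0⟩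
    · have : NeZero z := ⟨by omega⟩
      refine ⟨fun a b c => a + b + c = 0, ?_, ?_, ?_⟩
      · intro a b c h
        rw [← h]; abel
      · intro a b c c' h h'
        exact add_left_cancel (h.trans h'.symm)
      · intro a b
        exact ⟨-(a + b), by abel⟩
  have hcomp : ∀ a b : U ⊕ Fin z, ∃ c : U ⊕ Fin z, (match a, b, c with
    | Sum.inl a, Sum.inl b, Sum.inl c => R a b c
    | Sum.inl a, Sum.inl b, Sum.inr i => σ i a = b
    | Sum.inl b, Sum.inr i, Sum.inl a => σ i a = b
    | Sum.inr i, Sum.inl a, Sum.inl b => σ i a = b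
    | Sum.inr i, Sum.inr j, Sum.inr k => Q i j k
    | _, _, _ => False : Prop) := by
    rintro (a | i) (b | j)
    · by_cases hc : Cov R a b
      · obtain ⟨c, hc⟩ := hc
        exact ⟨Sum.inl c, hc⟩
      · obtain ⟨i, hi⟩ := s2 a b ((lv_iff hR a b).2 hc)
        exact ⟨Sum.inr i, hi⟩
    · refine ⟨Sum.inl ((σ j).symm a), ?_⟩
      show σ j ((σ j).symm a) = a
      simp
    · exact ⟨Sum.inl (σ i b), rfl⟩
    · obtain ⟨k, hk⟩ := q3 i j
      exact ⟨Sum.inr k, hk⟩
  refine ⟨fun u v w =>
    match u, v, w with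
    | Sum.inl a, Sum.inl b, Sum.inl c => R a b c
    | Sum.inl a, Sum.inl b, Sum.inr i => σ i a = b
    | Sum.inl b, Sum.inr i, Sum.inl a => σ i a = b
    | Sum.inr i, Sum.inl a, Sum.inl b => σ i a = b
    | Sum.inr i, Sum.inr j, Sum.inr k => Q i j k
    | _, _, _ => False, ⟨?_, ?_, ?_⟩, hcomp, ?_⟩
  · rintro (a | i) (b | j) (c | k) h
    · exact hR.cyc _ _ _ h
    · exact h
    · exact h
    · exact h
    · exact h
    · exact h
    · exact h
    · exact q1 _ _ _ h
  · rintro (a | i) (b | j) (c | k) (c' | k') h h'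
    · rw [hR.uniq _ _ _ _ h h']
    · exfalso
      have e' : σ k' a = b := h'
      have := s1 k' a
      rw [e'] at this
      exact this.2 ⟨c, h⟩
    · exfalso
      have e' : σ k a = b := h
      have := s1 k a
      rw [e'] at this
      exact this.2 ⟨c', h'⟩
    · have e1 : σ k a = b := h
      have e2 : σ k' a = b := h'
      rw [s3 k k' a (e1.trans e2.symm)]
    · have e1 : σ j c = a := h
      have e2 : σ j c' = a := h'
      rw [(σ j).injective (e1.trans e2.symm)]
    · exact absurd h' id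
    · exact absurd h id
    · exact absurd h id
    · have e1 : σ i b = c := h
      have e2 : σ i b = c' := h'
      rw [e1.symm.trans e2]
    · exact absurd h' id
    · exact absurd h id
    · exact absurd h id
    · exact absurd h id
    · exact absurd h id
    · exact absurd h' id
    · rw [q2 _ _ _ _ h h']
  · intro a
    exact hcomp a a
  · intro a b c h
    exact h

/-- Assembling. -/
theorem asm_PS {N C : Type*} {T : N → N → N → Prop} {S : C → C → C → Prop}
    {A : N → Finset (C × C)} (hT : PS T) (hS : PS S) (hA : ∀ x, PInj (A x))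
    (hd : ∀ x y, x ≠ y → Disjoint (A x) (A y))
    (hun : ∀ x, ∀ p ∈ A x, ¬ Cov S p.1 p.2) : PS (Asm T S A) := by
  refine ⟨?_, ?_, ?_⟩
  · rintro (a | i) (b | j) (c | k) h
    · exact hT.cyc _ _ _ h
    · exact h
    · exact h
    · exact h
    · exact h
    · exact h
    · exact h
    · exact hS.cyc _ _ _ h
  · rintro (a | i) (b | j) (c | k) (c' | k') h h'
    · rw [hT.uniq _ _ _ _ h h']
    · exact absurd h' id
    · exact absurd h id
    · exact absurd h id
    · exact absurd h id
    · exact absurd h id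
    · exact absurd h' id
    · have h1 : (j, k) ∈ A a := h
      have h2 : (j, k') ∈ A a := h'
      have := (hA a).1 _ h1 _ h2 rfl
      rw [Prod.ext_iff] at this
      exact congrArg Sum.inr this.2
    · exact absurd h id
    · exact absurd h id
    · exact absurd h' id
    · have h1 : (k, i) ∈ A b := h
      have h2 : (k', i) ∈ A b := h'
      have := (hA b).2 _ h1 _ h2 rfl
      rw [Prod.ext_iff] at this
      exact congrArg Sum.inr this.1
    · have h1 : (i, j) ∈ A c := h
      have h2 : (i, j) ∈ A c' := h'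
      by_contra hne'
      exact (disjoint_left.1 (hd c c' (fun e => hne' (by rw [e])))) h1 h2
    · have h1 : (i, j) ∈ A c := h
      exact absurd ⟨k', h'⟩ (hun c _ h1)
    · have h1 : (i, j) ∈ A c' := h'
      exact absurd ⟨k, h⟩ (hun c' _ h1)
    · rw [hS.uniq _ _ _ _ h h']
  · rintro (a | i)
    · obtain ⟨c, hc⟩ := hT.loop a
      exact ⟨Sum.inl c, hc⟩
    · obtain ⟨c, hc⟩ := hS.loop i
      exact ⟨Sum.inr c, hc⟩

/-- adding idempotents to a partial MTS -/
theorem diag_PS {C : Type*} {S : C → C → C → Prop} (hS : IsPMTS S) :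
    PS (fun a b c => S a b c ∨ (a = b ∧ b = c)) := by
  refine ⟨?_, ?_, ?_⟩
  · rintro a b c (h | ⟨rfl, rfl⟩)
    · exact Or.inl (hS.cyc _ _ _ h)
    · exact Or.inr ⟨rfl, rfl⟩
  · rintro a b c c' (h | ⟨rfl, rfl⟩) (h' | ⟨h1, h2⟩)
    · exact hS.uniq _ _ _ _ h h'
    · exact absurd h1 (hS.ne _ _ _ h)
    · exact absurd rfl (hS.ne _ _ _ h')
    · exact h2
  · intro a
    exact ⟨a, Or.inr ⟨rfl, rfl⟩⟩

theorem diag_cdeg {C : Type*} [Fintype C] {S : C → C → C → Prop} (hS : IsPMTS S) (w : C) :
    cdeg (fun a b c => S a b c ∨ (a = b ∧ b = c)) w = cdeg S w + 1 := by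
  classical
  unfold cdeg
  have e : univ.filter (fun b => Cov (fun a b c => S a b c ∨ (a = b ∧ b = c)) w b) =
      insert w (univ.filter (fun b => Cov S w b)) := by
    ext b
    simp only [mem_filter, mem_univ, true_and, mem_insert]
    constructor
    · rintro ⟨c, (h | ⟨h, _⟩)⟩
      · exact Or.inr ⟨c, h⟩
      · exact Or.inl h.symm
    · rintro (rfl | ⟨c, h⟩)
      · exact ⟨b, Or.inr ⟨rfl, rfl⟩⟩
      · exact ⟨c, Or.inl h⟩
  rw [e, card_insert_of_notMem]
  simp only [mem_filter, mem_univ, true_and]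
  intro h
  exact (Cov.ne hS h) rfl

end Pool.Agent.Run7.h87.SS
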