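import Pool.Agent.Run7.h87.SS.Basic
import Pool.Agent.Run7.h87.Design2

set_option autoImplicit false

/-! Embedding partial semisymmetric quasigroups: order `n` into all orders `t ≥ 3n + 47`. -/

namespace Pool.Agent.Run7.h87.SS

open Finset Pool.Agent.Run7.h87

attribute [local instance 10] Classical.propDecidable

/-- Core embedding: `n` points with all squares defined, into order `n + 6 k - η`. -/
theorem embed_core {N : Type} [Fintype N] {T : N → N → N → Prop} (hT : PS T) (n k η : ℕ)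
    (hn : Fintype.card N = n) (hn3 : 3 ≤ n)
    (hid : n * n ≡ (univ.filter (fun a => T a a a)).card [MOD 3])
    (hk : k % 2 = 1) (hη : η % 3 = 0) (hkn : n + 10 + η ≤ 3 * k) :
    ∃ (V : Type) (_ : Fintype V) (R : V → V → V → Prop) (f : N → V), PS R ∧
      (∀ a b, ∃ c, R a b c) ∧ Function.Injective f ∧ Fintype.card V + η = n + 6 * k ∧
      ∀ a b c, T a b c → R (f a) (f b) (f c) := by
  classical
  have : NeZero k := ⟨by omega⟩
  obtain ⟨T', hT', hTT', hmax⟩ := exists_maximal hT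
  have hL2 := two_mul_leave_le hT' hmax
  have hidem : (univ.filter (fun a => T' a a a)) = (univ.filter (fun a => T a a a)) := by
    ext a
    simp only [mem_filter, mem_univ, true_and]
    constructor
    · intro h
      obtain ⟨c, hc⟩ := hT.loop a
      have := hT'.uniq _ _ _ _ h (hTT' _ _ _ hc)
      rw [← this] at hc
      exact hc
    · exact fun h => hTT' _ _ _ h
  have hL3 : (∑ a, ldeg T' a) % 3 = 0 := by
    have h1 := sum_ldeg_add hT'
    have h2 := cov_modEq hT'
    rw [hidem] at h2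
    have h3 := h2.trans hid.symm
    rw [hn] at h1
    unfold Nat.ModEq at h3
    omega
  rw [hn] at hL2
  set L := ∑ a, ldeg T' a with hL
  set Λ := L + n * η with hΛ
  have hΛ3 : Λ % 3 = 0 := by
    obtain ⟨e, he⟩ : ∃ e, η = 3 * e := ⟨η / 3, by omega⟩
    have : n * η = 3 * (n * e) := by rw [he]; ring
    omega
  set c := 3 * k with hc
  have hcpos : 0 < c := by omega
  set q := Λ / c with hq
  set ρ := Λ % c with hρ
  have hqr : c * q + ρ = Λ := Nat.div_add_mod Λ c
  have hρc : ρ < c := Nat.mod_lt _ hcpos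
  have hρ3 : ρ % 3 = 0 := by
    have : ρ = Λ - 3 * (k * q) := by
      have : c * q = 3 * (k * q) := by rw [hc]; ring
      omega
    omega
  obtain ⟨p, hp⟩ : ∃ p, ρ = 3 * p := ⟨ρ / 3, by omega⟩
  have hkey : 2 * q + 2 ≤ n - 1 + η := by
    by_contra hcon
    push Not at hcon
    have h1 : n + η ≤ 2 * q + 2 := by omega
    have h2 : 2 * (c * q) ≤ n ^ 2 + 2 * (n * η) := by
      have : c * q ≤ Λ := by omega
      omega
    have h4 : (n + 10 + η) * (2 * q) ≤ n ^ 2 + 2 * (n * η) := by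
      calc (n + 10 + η) * (2 * q) ≤ c * (2 * q) := Nat.mul_le_mul_right _ hkn
        _ = 2 * (c * q) := by ring
        _ ≤ _ := h2
    obtain ⟨s, hs⟩ : ∃ s, 2 * q + 2 = n + η + s := ⟨2 * q + 2 - (n + η), by omega⟩
    obtain ⟨m, hm⟩ : ∃ m, n = m + 3 := ⟨n - 3, by omega⟩
    have h5 : 2 * q = m + 1 + η + s := by omega
    rw [h5, hm] at h4
    nlinarith [Nat.zero_le (m * s), Nat.zero_le (η * s), Nat.zero_le (η * η)]
  obtain ⟨M, hM⟩ : ∃ M, n - 1 + η = 2 * q + 2 + M := ⟨n - 1 + η - (2 * q + 2), by omega⟩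
  obtain ⟨j, hj⟩ : ∃ j, j = M / 3 := ⟨_, rfl⟩
  obtain ⟨ε, hε⟩ : ∃ ε, ε = M % 3 := ⟨_, rfl⟩
  have hMj : M = 3 * j + ε := by omega
  obtain ⟨S, Q, F, R, hS, hQc, hF, hFc, hR, hFF, hFR, hRc, hav, hdeg⟩ :=
    design (k := k) hk ε j q p (by omega) (by omega) (by omega) (by omega)
  have hcardC : Fintype.card (ZMod k × ZMod 3) = c := by
    rw [Fintype.card_prod, ZMod.card, ZMod.card, hc, mul_comm]
  have hld : ∀ x, ldeg T' x ≤ n := by
    intro x
    have := ldeg_add_cdeg hT' x
    omega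
  obtain ⟨A, hA1, hA2, hA3, hA4⟩ := prescribed (C := ZMod k × ZMod 3) (univ : Finset N)
    (fun x => ldeg T' x + η) (fun x _ => by rw [hcardC]; have := hld x; omega) Q F R hF hFc hR hFF hFR
    (by
      rw [sum_add_distrib, sum_const, smul_eq_mul, Finset.card_univ, hn, ← hL, hQc, hRc, hcardC,
        ← hp, mul_comm q c, hqr])
  have hPI : ∀ x, PInj (A x) := fun x => hA1 x (mem_univ x)
  have hdis : ∀ x y, x ≠ y → Disjoint (A x) (A y) := fun x y hxy =>
    hA3 x (mem_univ x) y (mem_univ y) hxy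
  have hAiff : ∀ a, (∃ x, a ∈ A x) ↔ ((∃ g ∈ Q, a ∈ F g) ∨ a ∈ R) := by
    intro a
    rw [← hA4 a]
    constructor
    · rintro ⟨x, hx⟩; exact ⟨x, mem_univ x, hx⟩
    · rintro ⟨x, -, hx⟩; exact ⟨x, hx⟩
  have hun0 : ∀ x, ∀ a ∈ A x, ¬ Cov S a.1 a.2 := fun x a ha => (hav a ((hAiff a).1 ⟨x, ha⟩)).2
  have hne : ∀ x, ∀ a ∈ A x, a.1 ≠ a.2 := fun x a ha => (hav a ((hAiff a).1 ⟨x, ha⟩)).1
  set S' : ZMod k × ZMod 3 → ZMod k × ZMod 3 → ZMod k × ZMod 3 → Prop :=
    fun a b c => S a b c ∨ (a = b ∧ b = c) with hS'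
  have hS'P : PS S' := diag_PS hS
  have hun : ∀ x, ∀ a ∈ A x, ¬ Cov S' a.1 a.2 := by
    rintro x a ha ⟨c', (h | ⟨h, _⟩)⟩
    · exact hun0 x a ha ⟨c', h⟩
    · exact hne x a ha h
  have hAsm : PS (Asm T' S' A) := asm_PS hT' hS'P hPI hdis hun
  have hcardU : Fintype.card (N ⊕ (ZMod k × ZMod 3)) = n + c := by
    rw [Fintype.card_sum, hn, hcardC]
  have hreg : ∀ v, ldeg (Asm T' S' A) v = c - η := by
    rintro (x | w)
    · have h1 := ldeg_asm_inl (T := T') (S := S') x (hPI x)
      rw [hA2 x (mem_univ x), hcardC] at h1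
      omega
    · have h1 := ldeg_add_cdeg hAsm (Sum.inr w)
      obtain ⟨G, hG⟩ : ∃ G : ZMod k × ZMod 3 → ZMod k × ZMod 3 → Prop,
        ∀ w w', G w w' ↔ ∃ x, (w, w') ∈ A x := ⟨fun w w' => ∃ x, (w, w') ∈ A x, fun _ _ => Iff.rfl⟩
      rw [cdeg_asm_inr hPI hdis hun G hG, hcardU, hS', diag_cdeg hS] at h1
      have h2 := hdeg G (fun w w' => (hG w w').trans (hAiff (w, w'))) w
      have h3 : ldeg (Asm T' S' A) (Sum.inr w) + (cdeg S w + 1 +
        (univ.filter (fun w' => G w w')).card + (univ.filter (fun w' => G w' w)).card) = n + c := h1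
      omega
  obtain ⟨R', hR', hcomp, hext⟩ := hub_completion hAsm hreg
  refine ⟨(N ⊕ (ZMod k × ZMod 3)) ⊕ Fin (c - η), inferInstance, R',
    fun x => Sum.inl (Sum.inl x), hR', hcomp, ?_, ?_, ?_⟩
  · intro a b e
    exact Sum.inl_injective (Sum.inl_injective e)
  · rw [Fintype.card_sum, hcardU, Fintype.card_fin]
    omega
  · intro a b c' habc
    exact hext _ _ _ (hTT' _ _ _ habc)

/-- The dummy points: `Fin δ` with `r` products `(2 i)(2 i) = 2 i + 1`. -/
def Dum (δ r : ℕ) (a b c : Fin δ) : Prop :=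
  (a = b ∧ b = c ∧ ¬ (a.val % 2 = 0 ∧ a.val < 2 * r)) ∨
  (∃ i, i < r ∧ ((a.val = 2 * i ∧ b.val = 2 * i ∧ c.val = 2 * i + 1) ∨
    (a.val = 2 * i ∧ b.val = 2 * i + 1 ∧ c.val = 2 * i) ∨
    (a.val = 2 * i + 1 ∧ b.val = 2 * i ∧ c.val = 2 * i)))

theorem dum_PS (δ r : ℕ) (hr : 2 * r ≤ δ) : PS (Dum δ r) := by
  refine ⟨?_, ?_, ?_⟩
  · rintro a b c (⟨rfl, rfl, h⟩ | ⟨i, hi, h⟩)
    · exact Or.inl ⟨rfl, rfl, h⟩
    · refine Or.inr ⟨i, hi, ?_⟩
      rcases h with h | h | h
      · exact Or.inr (Or.inl ⟨h.2.1, h.2.2, h.1⟩)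
      · exact Or.inr (Or.inr ⟨h.2.1, h.2.2, h.1⟩)
      · exact Or.inl ⟨h.2.1, h.2.2, h.1⟩
  · rintro a b c c' (⟨rfl, rfl, h⟩ | ⟨i, hi, h⟩) (⟨h1, h2, h3⟩ | ⟨i', hi', h'⟩)
    · exact h2
    · exfalso
      apply h
      rcases h' with h' | h' | h' <;> constructor <;> omega
    · exfalso
      apply h3
      have : a.val = b.val := by rw [h1]
      rcases h with h | h | h <;> constructor <;> omega
    · apply Fin.ext
      rcases h with h | h | h <;> rcases h' with h' | h' | h' <;> omega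
  · intro a
    by_cases h : a.val % 2 = 0 ∧ a.val < 2 * r
    · refine ⟨⟨a.val + 1, by omega⟩, Or.inr ⟨a.val / 2, by omega, Or.inl ⟨by omega, by omega, ?_⟩⟩⟩
      show a.val + 1 = 2 * (a.val / 2) + 1
      omega
    · exact ⟨a, Or.inl ⟨rfl, rfl, h⟩⟩

theorem dum_idem (δ r : ℕ) (hr : 2 * r ≤ δ) :
    (univ.filter (fun a : Fin δ => Dum δ r a a a)).card + r = δ := by
  classical
  have e1 : (univ.filter (fun a : Fin δ => ¬ Dum δ r a a a)).card = r := by
    have : (univ.filter (fun a : Fin δ => ¬ Dum δ r a a a)).card = (univ : Finset (Fin r)).card := by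
      symm
      refine card_bij (fun i _ => ⟨2 * i.val, by have := i.2; omega⟩) ?_ ?_ ?_
      · intro i _
        simp only [mem_filter, mem_univ, true_and]
        rintro (⟨_, _, h⟩ | ⟨i', hi', h⟩)
        · apply h
          have := i.2
          constructor
          · show (2 * i.val) % 2 = 0
            omega
          · show 2 * i.val < 2 * r
            omega
        · simp only at h
          omega
      · intro i _ i' _ e
        have := congrArg Fin.val e
        simp only at this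
        apply Fin.ext
        omega
      · intro a ha
        simp only [mem_filter, mem_univ, true_and] at ha
        have h : a.val % 2 = 0 ∧ a.val < 2 * r := by
          by_contra hcon
          exact ha (Or.inl ⟨rfl, rfl, hcon⟩)
        refine ⟨⟨a.val / 2, by omega⟩, mem_univ _, ?_⟩
        apply Fin.ext
        show 2 * (a.val / 2) = a.val
        omega
    rw [this, Finset.card_univ, Fintype.card_fin]
  have e2 := Finset.card_filter_add_card_filter_not (s := (univ : Finset (Fin δ)))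
    (fun a : Fin δ => Dum δ r a a a)
  rw [Finset.card_univ, Fintype.card_fin] at e2
  omega

/-- Main theorem. -/
theorem embed_main (n : ℕ) (P : Fin n → Fin n → Option (Fin n))
    (hP : ∀ x y z, P y x = some z → P x z = some y)
    (t : ℕ) (ht : 3 * n + 47 ≤ t) :
    ∃ (f : Fin t → Fin t → Fin t) (φ : Fin n → Fin t),
      (∀ a, Function.Bijective (f a)) ∧
      (∀ b, Function.Bijective (fun a => f a b)) ∧
      (∀ x y, f x (f y x) = y) ∧
      Function.Injective φ ∧
      ∀ a b c, P a b = some c → f (φ a) (φ b) = φ c := by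
  classical
  -- complete the squares
  set T0 : Fin n → Fin n → Fin n → Prop := fun a b c =>
    P a b = some c ∨ (a = b ∧ b = c ∧ P a a = none) with hT0
  have hT0P : PS T0 := by
    refine ⟨?_, ?_, ?_⟩
    · rintro a b c (h | ⟨rfl, rfl, h⟩)
      · exact Or.inl (hP _ _ _ h)
      · exact Or.inr ⟨rfl, rfl, h⟩
    · rintro a b c c' (h | ⟨h1, h2, h3⟩) (h' | ⟨h1', h2', h3'⟩)
      · exact Option.some.inj (h.symm.trans h')
      · subst h1'
        rw [h3'] at h
        exact absurd h (by simp)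
      · subst h1
        rw [h3] at h'
        exact absurd h' (by simp)
      · exact h2.symm.trans h2'
    · intro a
      rcases h : P a a with _ | c
      · exact ⟨a, Or.inr ⟨rfl, rfl, h⟩⟩
      · exact ⟨c, Or.inl h⟩
  obtain ⟨δ, η, k, hδ, hη, hk, hkn, hteq⟩ : ∃ δ η k : ℕ, 4 ≤ δ ∧ η % 3 = 0 ∧ k % 2 = 1 ∧
      (n + δ) + 10 + η ≤ 3 * k ∧ t + η = n + δ + 6 * k := by
    obtain ⟨r, hr⟩ : ∃ r, r = (t - n - 4) % 12 := ⟨_, rfl⟩
    have hr12 : r < 12 := by omega
    obtain ⟨m, hm⟩ : ∃ m, t - n - 4 = 12 * m + r := ⟨(t - n - 4) / 12, by omega⟩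
    interval_cases r
    · exact ⟨4, 6, 2 * m + 1, by omega, by omega, by omega, by omega, by omega⟩
    · exact ⟨5, 6, 2 * m + 1, by omega, by omega, by omega, by omega, by omega⟩
    · exact ⟨6, 6, 2 * m + 1, by omega, by omega, by omega, by omega, by omega⟩
    · exact ⟨4, 3, 2 * m + 1, by omega, by omega, by omega, by omega, by omega⟩
    · exact ⟨5, 3, 2 * m + 1, by omega, by omega, by omega, by omega, by omega⟩
    · exact ⟨6, 3, 2 * m + 1, by omega, by omega, by omega, by omega, by omega⟩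
    · exact ⟨4, 0, 2 * m + 1, by omega, by omega, by omega, by omega, by omega⟩
    · exact ⟨5, 0, 2 * m + 1, by omega, by omega, by omega, by omega, by omega⟩
    · exact ⟨6, 0, 2 * m + 1, by omega, by omega, by omega, by omega, by omega⟩
    · exact ⟨4, 9, 2 * m + 3, by omega, by omega, by omega, by omega, by omega⟩
    · exact ⟨5, 9, 2 * m + 3, by omega, by omega, by omega, by omega, by omega⟩
    · exact ⟨6, 9, 2 * m + 3, by omega, by omega, by omega, by omega, by omega⟩
  obtain ⟨I0, hI0⟩ : ∃ I0, (univ.filter (fun a => T0 a a a)).card = I0 := ⟨_, rfl⟩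
  obtain ⟨r, hr2, hr⟩ : ∃ r : ℕ, r ≤ 2 ∧
      (n + δ) * (n + δ) + r ≡ I0 + δ [MOD 3] := by
    obtain ⟨s, hs⟩ : ∃ s, (n + δ) * (n + δ) = s := ⟨_, rfl⟩
    rw [hs]
    refine ⟨(I0 + δ + 2 * s) % 3, by omega, ?_⟩
    unfold Nat.ModEq
    omega
  have hD := dum_PS δ r (by omega)
  have hDi := dum_idem δ r (by omega)
  set T : Fin n ⊕ Fin δ → Fin n ⊕ Fin δ → Fin n ⊕ Fin δ → Prop :=
    Asm T0 (Dum δ r) (fun _ => ∅) with hTdef
  have hT : PS T := asm_PS hT0P hD (fun x => ⟨by simp, by simp⟩) (fun x y _ => by simp)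
    (fun x p hp => absurd hp (notMem_empty _))
  have hidT : (univ.filter (fun a => T a a a)).card + r = I0 + δ := by
    have e : (univ.filter (fun a => T a a a)) =
        (univ.filter (fun a : Fin n => T0 a a a)).disjSum (univ.filter (fun a : Fin δ => Dum δ r a a a)) := by
      ext v
      rcases v with y | w
      · simp only [mem_filter, mem_univ, true_and, inl_mem_disjSum]
        exact Iff.rfl
      · simp only [mem_filter, mem_univ, true_and, inr_mem_disjSum]
        exact Iff.rfl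
    rw [e, card_disjSum, hI0]
    omega
  obtain ⟨V, _, R, f, hR, hcomp, hf, hV, hemb⟩ := embed_core hT (n + δ) k η
    (by rw [Fintype.card_sum, Fintype.card_fin, Fintype.card_fin]) (by omega)
    (by
      unfold Nat.ModEq at hr ⊢
      omega) hk hη hkn
  choose op hop using hcomp
  let e : V ≃ Fin t := Fintype.equivFinOfCardEq (by omega)
  have key : ∀ x y, op x (op y x) = y := by
    intro x y
    exact hR.uniq _ _ _ _ (hop x (op y x)) (hR.cyc _ _ _ (hop y x))
  set g : Fin t → Fin t → Fin t := fun x y => e (op (e.symm x) (e.symm y)) with hg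
  have hkey : ∀ x y, g x (g y x) = y := by
    intro x y
    simp [hg, key]
  refine ⟨g, fun x => e (f (Sum.inl x)), ?_, ?_, hkey, ?_, ?_⟩
  · intro a
    exact Function.Surjective.bijective_of_finite (fun y => ⟨g y a, hkey a y⟩)
  · intro b
    apply Function.Injective.bijective_of_finite
    intro x y hxy
    have h1 := hkey b x
    have h2 := hkey b y
    have h3 : g x b = g y b := hxy
    rw [← h1, ← h2, h3]
  · intro x y hxy
    exact Sum.inl_injective (hf (e.injective hxy))
  · intro a b c hp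
    have h1 : R (f (Sum.inl a)) (f (Sum.inl b)) (f (Sum.inl c)) := hemb _ _ _ (Or.inl hp)
    have h2 := hR.uniq _ _ _ _ (hop _ _) h1
    simp only [hg, Equiv.symm_apply_apply, h2]

end Pool.Agent.Run7.h87.SS
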